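import Mathlib
import Pool.Agent.BisF.Final
import Pool.Agent.Bisect.Exact

/-!
# Exact minimum max bisection under a minimum degree condition, for `2 m ≥ (δ (δ + 17))²`
-/

set_option autoImplicit false

namespace Pool.Agent.Results.MP_5de61a_co.LargeExact

open Pool.Agent.Bisect Pool.Agent.BisF

theorem result :
    (∀ (δ : ℕ), 1 ≤ δ → ∀ (m k h : ℕ), (δ * (δ + 17)) ^ 2 ≤ 2 * m →
      2 * m + δ * (δ + 1) = 4 * δ * k + 2 * h → h < 2 * δ →
      (∃ (V : Type) (_ : Fintype V) (G : SimpleGraph V),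
        G.edgeSet.ncard = m ∧ ∀ v, δ ≤ (G.neighborSet v).ncard) ∧
      bisMin δ m = δ * k + min δ (cmin h)) ∧
    (∀ h : ℕ, cutMin h = cmin h ∧ weightedCutMin h = cmin h) := by
  refine ⟨?_, fun h => ⟨cutMin_eq_cmin h, weightedCutMin_eq_cmin h⟩⟩
  intro δ hδ m k h hm hk hh
  obtain ⟨h1, h2, h3, _⟩ := main hδ hm hk hh
  rw [weightedCutMin_eq_cmin] at h2
  rw [cutMin_eq_cmin] at h3
  exact ⟨h1, le_antisymm h3 h2⟩

end Pool.Agent.Results.MP_5de61a_co.LargeExact
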