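import Mathlib
import Pool.Agent.Bisect.Sharp

/-!
# `b_δ(m)` up to an error `8 δ`, uniformly in all `δ` and `m`, with a sharp lower bound
-/

set_option autoImplicit false

namespace Pool.Agent.Results.MP_5de61a_co.UniformAll

open Pool.Agent.Bisect

theorem result (δ : ℕ) (hδ : 1 ≤ δ) :
    (∀ m : ℕ, (∃ (V : Type) (_ : Fintype V) (G : SimpleGraph V),
        G.edgeSet.ncard = m ∧ ∀ v, δ ≤ (G.neighborSet v).ncard) →
      (m : ℝ) / 2 + min (Real.sqrt (m / 8 + 1 / 64) - 1 / 8) ((δ : ℝ) * (δ + 1) / 4) ≤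
        bisMin δ m ∧
      (bisMin δ m : ℝ) ≤
        m / 2 + min (Real.sqrt (m / 8 + 1 / 64) - 1 / 8) ((δ : ℝ) * (δ + 1) / 4) + 8 * δ) ∧
    (∀ n : ℕ, Odd n → δ + 1 ≤ n → n ≤ δ * (δ + 1) + 1 →
      4 * bisMin δ (n * (n - 1) / 2) + 1 = n ^ 2) ∧
    (∀ m k : ℕ, 2 * m + δ * (δ + 1) = 4 * δ * k → δ * (δ + 1) * (δ * (δ + 1) + 1) ≤ 2 * m →
      bisMin δ m = δ * k) :=
  ⟨fun _ hadm => ⟨lower_all hadm, upper_all hδ hadm⟩,
    fun _ hn h1 h2 => exact_clique hδ hn h1 h2, fun _ _ hk hm => exact_base hδ hk hm⟩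

end Pool.Agent.Results.MP_5de61a_co.UniformAll
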